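import Mathlib

set_option autoImplicit false

namespace Pool.Agent.Lib.MP_436b38_co

open PowerSeries

abbrev Q1 := PowerSeries ℚ
abbrev Q2 := PowerSeries Q1

/-- two-variable coefficient -/
noncomputable def cf (f : Q2) (x y : ℕ) : ℚ := coeff y (coeff x f)

lemma cf_ext {f g : Q2} (h : ∀ x y, cf f x y = cf g x y) : f = g := by
  ext x y
  exact h x y

@[simp] lemma cf_add (f g : Q2) (x y : ℕ) : cf (f + g) x y = cf f x y + cf g x y := by
  simp [cf]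

@[simp] lemma cf_smul (q : ℚ) (g : Q2) (x y : ℕ) : cf (q • g) x y = q * cf g x y := by
  simp [cf]

@[simp] lemma cf_zero (x y : ℕ) : cf 0 x y = 0 := by
  simp [cf]

lemma cf_mul (f g : Q2) (x y : ℕ) : cf (f * g) x y =
    ∑ p ∈ Finset.HasAntidiagonal.antidiagonal x, ∑ r ∈ Finset.HasAntidiagonal.antidiagonal y,
      cf f p.1 r.1 * cf g p.2 r.2 := by
  unfold cf
  rw [coeff_mul, map_sum]
  refine Finset.sum_congr rfl ?_
  intro p _
  rw [coeff_mul]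

/-- coefficientwise multiplication by a weight -/
noncomputable def wmul (w : ℕ → ℕ → ℚ) (f : Q2) : Q2 := mk fun x => mk fun y => w x y * cf f x y

lemma cf_wmul (w : ℕ → ℕ → ℚ) (f : Q2) (x y : ℕ) : cf (wmul w f) x y = w x y * cf f x y := by
  simp [cf, wmul]

lemma wmul_add (w : ℕ → ℕ → ℚ) (f g : Q2) : wmul w (f + g) = wmul w f + wmul w g := by
  apply cf_ext; intro x y; simp only [cf_wmul, cf_add, mul_add]

lemma wmul_mul (w : ℕ → ℕ → ℚ) (hw : ∀ a b c d, w (a + b) (c + d) = w a c + w b d) (f g : Q2) :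
    wmul w (f * g) = f * wmul w g + g * wmul w f := by
  apply cf_ext
  intro x y
  rw [mul_comm g (wmul w f), cf_wmul, cf_add, cf_mul, cf_mul, cf_mul, Finset.mul_sum,
    ← Finset.sum_add_distrib]
  refine Finset.sum_congr rfl ?_
  intro p hp
  rw [Finset.mul_sum, ← Finset.sum_add_distrib]
  refine Finset.sum_congr rfl ?_
  intro r hr
  rw [Finset.HasAntidiagonal.mem_antidiagonal] at hr hp
  have : w x y = w p.1 r.1 + w p.2 r.2 := by rw [← hr, ← hp, hw]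
  rw [this, cf_wmul, cf_wmul]
  ring

/-- A plain additive map satisfying the Leibniz rule. -/
structure IsDer {R : Type*} [CommRing R] (S : R → R) : Prop where
  add : ∀ x y, S (x + y) = S x + S y
  mul : ∀ x y, S (x * y) = x * S y + y * S x

namespace IsDer

variable {R : Type*} [CommRing R] {S : R → R} (h : IsDer S)
include h

lemma one : S 1 = 0 := by
  have := h.mul 1 1
  simp only [mul_one, one_mul] at this
  linear_combination -this

lemma zero : S 0 = 0 := by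
  have := h.add 0 0
  simp only [add_zero] at this
  linear_combination -this

lemma neg (x : R) : S (-x) = - S x := by
  have := h.add x (-x)
  rw [add_neg_cancel, h.zero] at this
  linear_combination -this

lemma sub (x y : R) : S (x - y) = S x - S y := by
  rw [sub_eq_add_neg, h.add, h.neg, sub_eq_add_neg]

lemma natCast (n : ℕ) : S (n : R) = 0 := by
  induction n with
  | zero => simpa using h.zero
  | succ n ih => rw [Nat.cast_succ, h.add, ih, h.one, add_zero]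

lemma pow (x : R) (n : ℕ) : S (x ^ n) = n * x ^ (n - 1) * S x := by
  induction n with
  | zero => simpa using h.one
  | succ n ih =>
    rw [pow_succ, h.mul, ih]
    cases n with
    | zero => simp
    | succ n =>
      simp only [Nat.add_sub_cancel, Nat.cast_add, Nat.cast_one]
      ring

end IsDer

/-- Euler operator in the second variable -/
noncomputable def thetaT : Q2 → Q2 := wmul (fun _ y => (y : ℚ))

lemma cf_thetaT (f : Q2) (x y : ℕ) : cf (thetaT f) x y = y * cf f x y := cf_wmul _ _ _ _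

lemma derT : IsDer thetaT :=
  ⟨fun f g => wmul_add _ f g, fun f g => wmul_mul _ (by intros; push_cast; ring) f g⟩

/-- Euler operator in the first variable -/
noncomputable def thetaS : Q2 → Q2 := wmul (fun x _ => (x : ℚ))

lemma cf_thetaS (f : Q2) (x y : ℕ) : cf (thetaS f) x y = x * cf f x y := cf_wmul _ _ _ _

lemma derS : IsDer thetaS :=
  ⟨fun f g => wmul_add _ f g, fun f g => wmul_mul _ (by intros; push_cast; ring) f g⟩

noncomputable abbrev S0 : Q2 := X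
noncomputable abbrev T0 : Q2 := C X
noncomputable abbrev U0 : Q2 := mk 1
noncomputable abbrev V0 : Q2 := C (mk 1)

lemma hU : U0 * (1 - S0) = 1 := mk_one_mul_one_sub_eq_one Q1
lemma hV : V0 * (1 - T0) = 1 := by
  have := mk_one_mul_one_sub_eq_one ℚ
  have h := congrArg (C : Q1 →+* Q2) this
  simpa using h

lemma thS_S : thetaS S0 = S0 := by
  apply cf_ext
  intro x y
  rw [cf_thetaS]
  unfold cf
  rw [coeff_X]
  split_ifs with h
  · simp [h]
  · simp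

lemma thS_C (f : Q1) : thetaS (C f) = 0 := by
  apply cf_ext
  intro x y
  rw [cf_thetaS]
  unfold cf
  rw [coeff_C]
  split_ifs with h
  · simp [h]
  · simp

lemma thS_T : thetaS T0 = 0 := thS_C _

lemma thS_V : thetaS V0 = 0 := thS_C _

lemma thS_U : thetaS U0 = S0 * U0 ^ 2 := by
  have h := congrArg thetaS hU
  rw [derS.mul, derS.sub, thS_S, derS.one] at h
  have hU' := hU
  linear_combination U0 * h + (- thetaS U0) * hU'

lemma thT_T : thetaT T0 = T0 := by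
  apply cf_ext
  intro x y
  rw [cf_thetaT]
  unfold cf
  rw [coeff_C]
  split_ifs with h
  · rw [coeff_X]
    split_ifs with h' <;> simp [h']
  · simp

lemma thT_S : thetaT S0 = 0 := by
  apply cf_ext
  intro x y
  rw [cf_thetaT]
  unfold cf
  rw [coeff_X]
  split_ifs with h
  · rw [coeff_one]
    split_ifs with h' <;> simp [h']
  · simp

lemma thT_U : thetaT U0 = 0 := by
  apply cf_ext
  intro x y
  rw [cf_thetaT]
  unfold cf
  rw [coeff_mk, Pi.one_apply, coeff_one]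
  split_ifs with h' <;> simp [h']

lemma thT_V : thetaT V0 = T0 * V0 ^ 2 := by
  have h := congrArg thetaT hV
  rw [derT.mul, derT.sub, thT_T, derT.one] at h
  have hV' := hV
  linear_combination V0 * h + (- thetaT V0) * hV'

/-- the mixed Euler operator -/
noncomputable def DD (f : Q2) : Q2 := thetaS (thetaT f)

lemma cf_DD (f : Q2) (x y : ℕ) : cf (DD f) x y = x * y * cf f x y := by
  unfold DD
  rw [cf_thetaS, cf_thetaT, mul_assoc]

lemma DD_add (f g : Q2) : DD (f + g) = DD f + DD g := by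
  unfold DD; rw [derT.add, derS.add]

lemma DD_zero : DD 0 = 0 := by
  unfold DD; rw [derT.zero, derS.zero]

lemma DD_smul (q : ℚ) (f : Q2) : DD (q • f) = q • DD f := by
  apply cf_ext
  intro x y
  rw [cf_DD, cf_smul, cf_smul, cf_DD]
  ring

/-- abstract second-order formula -/
theorem second_order {R : Type*} [CommRing R]
    {S T : R → R} (hS : IsDer S) (hT : IsDer T) (a β σ τ b c p : R)
    (h1 : σ * τ = b + c) (h2 : a * τ ^ 2 + β * σ ^ 2 = 4 * p + b * c) (h3 : a * β = p)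
    (Sb : S b = a * τ) (Sc : S c = a * τ) (Sp : S p = p * σ) (Sτ : S τ = 0) (Sβ : S β = 0)
    (Sσ : S σ = 2 * a)
    (Tb : T b = β * σ) (Tc : T c = β * σ) (Tp : T p = p * τ) (i j m : ℕ) :
    S (T (p ^ i * b ^ j * c ^ m)) =
      ((i * (i + j) : ℕ) : R) * (p ^ i * b ^ j * c ^ (m + 1)) +
      ((i * (i + m) : ℕ) : R) * (p ^ i * b ^ (j + 1) * c ^ m) +
      ((j * (j - 1) : ℕ) : R) * (p ^ (i + 1) * b ^ (j - 2) * c ^ (m + 1)) +
      ((j * (j + 2 * m + 4 * i + 1) : ℕ) : R) * (p ^ (i + 1) * b ^ (j - 1) * c ^ m) +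
      ((m * (m + 2 * j + 4 * i + 1) : ℕ) : R) * (p ^ (i + 1) * b ^ j * c ^ (m - 1)) +
      ((m * (m - 1) : ℕ) : R) * (p ^ (i + 1) * b ^ (j + 1) * c ^ (m - 2)) := by
  have Spi : S (p ^ i) = i * p ^ i * σ := by
    rw [hS.pow, Sp]
    cases i with
    | zero => simp
    | succ i => simp only [Nat.add_sub_cancel]; ring
  have Tpi : T (p ^ i) = i * p ^ i * τ := by
    rw [hT.pow, Tp]
    cases i with
    | zero => simp
    | succ i => simp only [Nat.add_sub_cancel]; ring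
  have TP : T (p ^ i * b ^ j * c ^ m) = i * p ^ i * τ * b ^ j * c ^ m +
      (j * b ^ (j - 1) * c ^ m + m * b ^ j * c ^ (m - 1)) * p ^ i * (β * σ) := by
    rw [hT.mul, hT.mul, Tpi, hT.pow, hT.pow, Tb, Tc]
    ring
  rw [TP]
  simp only [hS.add, hS.mul, Spi, hS.pow, Sb, Sc, Sτ, Sβ, Sσ, hS.natCast, mul_zero, add_zero, zero_add]
  obtain ⟨P, hP⟩ : ∃ P, P = p ^ i := ⟨_, rfl⟩
  have hp1 : p ^ (i + 1) = P * p := by rw [hP, pow_succ]
  rw [hp1, ← hP]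
  rcases j with _ | _ | j <;> rcases m with _ | _ | m <;>
    simp only [Nat.add_sub_cancel, Nat.zero_sub, Nat.sub_self, pow_zero, Nat.cast_zero,
      zero_mul, mul_zero, add_zero, zero_add, mul_one, Nat.cast_one, one_mul, Nat.cast_add,
      Nat.cast_mul, Nat.cast_ofNat, Nat.reduceSubDiff, Nat.reduceAdd]
  · linear_combination ((i:R)^2*P*1*1 + P*a*β*(0*0*1*1+2*0*0*1*1+0*0*1*1))*h1 + (i:R)*P*(0*1*1+0*1*1)*h2 + (2*P*(0*1*1+0*1*1) + P*(b+c)*(0*0*1*1+2*0*0*1*1+0*0*1*1))*h3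
  · linear_combination ((i:R)^2*P*1*c + P*a*β*(0*0*1*c+2*0*1*1*1+1*0*1*1))*h1 + (i:R)*P*(0*1*c+1*1*1)*h2 + (2*P*(0*1*c+1*1*1) + P*(b+c)*(0*0*1*c+2*0*1*1*1+1*0*1*1))*h3
  · linear_combination ((i:R)^2*P*1*c^(m+2) + P*a*β*(0*0*1*c^(m+2)+2*0*((m:R)+2)*1*c^(m+1)+((m:R)+2)*((m:R)+1)*1*c^m))*h1 + (i:R)*P*(0*1*c^(m+2)+((m:R)+2)*1*c^(m+1))*h2 + (2*P*(0*1*c^(m+2)+((m:R)+2)*1*c^(m+1)) + P*(b+c)*(0*0*1*c^(m+2)+2*0*((m:R)+2)*1*c^(m+1)+((m:R)+2)*((m:R)+1)*1*c^m))*h3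
  · linear_combination ((i:R)^2*P*b*1 + P*a*β*(1*0*1*1+2*1*0*1*1+0*0*b*1))*h1 + (i:R)*P*(1*1*1+0*b*1)*h2 + (2*P*(1*1*1+0*b*1) + P*(b+c)*(1*0*1*1+2*1*0*1*1+0*0*b*1))*h3
  · linear_combination ((i:R)^2*P*b*c + P*a*β*(1*0*1*c+2*1*1*1*1+1*0*b*1))*h1 + (i:R)*P*(1*1*c+1*b*1)*h2 + (2*P*(1*1*c+1*b*1) + P*(b+c)*(1*0*1*c+2*1*1*1*1+1*0*b*1))*h3
  · linear_combination ((i:R)^2*P*b*c^(m+2) + P*a*β*(1*0*1*c^(m+2)+2*1*((m:R)+2)*1*c^(m+1)+((m:R)+2)*((m:R)+1)*b*c^m))*h1 + (i:R)*P*(1*1*c^(m+2)+((m:R)+2)*b*c^(m+1))*h2 + (2*P*(1*1*c^(m+2)+((m:R)+2)*b*c^(m+1)) + P*(b+c)*(1*0*1*c^(m+2)+2*1*((m:R)+2)*1*c^(m+1)+((m:R)+2)*((m:R)+1)*b*c^m))*h3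
  · linear_combination ((i:R)^2*P*b^(j+2)*1 + P*a*β*(((j:R)+2)*((j:R)+1)*b^j*1+2*((j:R)+2)*0*b^(j+1)*1+0*0*b^(j+2)*1))*h1 + (i:R)*P*(((j:R)+2)*b^(j+1)*1+0*b^(j+2)*1)*h2 + (2*P*(((j:R)+2)*b^(j+1)*1+0*b^(j+2)*1) + P*(b+c)*(((j:R)+2)*((j:R)+1)*b^j*1+2*((j:R)+2)*0*b^(j+1)*1+0*0*b^(j+2)*1))*h3
  · linear_combination ((i:R)^2*P*b^(j+2)*c + P*a*β*(((j:R)+2)*((j:R)+1)*b^j*c+2*((j:R)+2)*1*b^(j+1)*1+1*0*b^(j+2)*1))*h1 + (i:R)*P*(((j:R)+2)*b^(j+1)*c+1*b^(j+2)*1)*h2 + (2*P*(((j:R)+2)*b^(j+1)*c+1*b^(j+2)*1) + P*(b+c)*(((j:R)+2)*((j:R)+1)*b^j*c+2*((j:R)+2)*1*b^(j+1)*1+1*0*b^(j+2)*1))*h3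
  · linear_combination ((i:R)^2*P*b^(j+2)*c^(m+2) + P*a*β*(((j:R)+2)*((j:R)+1)*b^j*c^(m+2)+2*((j:R)+2)*((m:R)+2)*b^(j+1)*c^(m+1)+((m:R)+2)*((m:R)+1)*b^(j+2)*c^m))*h1 + (i:R)*P*(((j:R)+2)*b^(j+1)*c^(m+2)+((m:R)+2)*b^(j+2)*c^(m+1))*h2 + (2*P*(((j:R)+2)*b^(j+1)*c^(m+2)+((m:R)+2)*b^(j+2)*c^(m+1)) + P*(b+c)*(((j:R)+2)*((j:R)+1)*b^j*c^(m+2)+2*((j:R)+2)*((m:R)+2)*b^(j+1)*c^(m+1)+((m:R)+2)*((m:R)+1)*b^(j+2)*c^m))*h3

end Pool.Agent.Lib.MP_436b38_co
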