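import Mathlib
import Pool.Agent.Lib.MP_436b38_co.Ring

set_option autoImplicit false
set_option linter.unusedSimpArgs false

namespace Pool.Agent.Lib.MP_436b38_co

open PowerSeries

noncomputable abbrev P0 : Q2 := S0 * T0 * (U0 * V0) ^ 2
noncomputable abbrev B0 : Q2 := (S0 + T0) * (U0 * V0)
noncomputable abbrev C0 : Q2 := (1 + S0 * T0) * (U0 * V0)

lemma C0_sub_B0 : C0 - B0 = 1 := by
  have h1 := hU
  have h2 := hV
  linear_combination h1 * (V0 * (1 - T0)) + h2

/-- The second-order formula for the monomials. -/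
lemma DD_gen (i j m : ℕ) :
    DD (P0 ^ i * B0 ^ j * C0 ^ m) =
      ((i * (i + j) : ℕ) : Q2) * (P0 ^ i * B0 ^ j * C0 ^ (m + 1)) +
      ((i * (i + m) : ℕ) : Q2) * (P0 ^ i * B0 ^ (j + 1) * C0 ^ m) +
      ((j * (j - 1) : ℕ) : Q2) * (P0 ^ (i + 1) * B0 ^ (j - 2) * C0 ^ (m + 1)) +
      ((j * (j + 2 * m + 4 * i + 1) : ℕ) : Q2) * (P0 ^ (i + 1) * B0 ^ (j - 1) * C0 ^ m) +
      ((m * (m + 2 * j + 4 * i + 1) : ℕ) : Q2) * (P0 ^ (i + 1) * B0 ^ j * C0 ^ (m - 1)) +
      ((m * (m - 1) : ℕ) : Q2) * (P0 ^ (i + 1) * B0 ^ (j + 1) * C0 ^ (m - 2)) := by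
  unfold DD
  have h1 := hU
  have h2 := hV
  refine second_order derS derT (S0 * U0 ^ 2) (T0 * V0 ^ 2) (U0 * (1 + S0)) (V0 * (1 + T0))
    B0 C0 P0 ?_ ?_ ?_ ?_ ?_ ?_ ?_ ?_ ?_ ?_ ?_ ?_ i j m
  · ring
  · ring
  · ring
  · simp only [derS.mul, derS.add, thS_S, thS_T, thS_U, thS_V]
    linear_combination (- (S0 * U0 * V0)) * h1
  · simp only [derS.mul, derS.add, thS_S, thS_T, thS_U, thS_V, derS.one]
    linear_combination (- (S0 * T0 * U0 * V0)) * h1
  · simp only [derS.mul, derS.add, derS.pow, thS_S, thS_T, thS_U, thS_V, derS.one]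
    simp only [Nat.cast_ofNat, Nat.reduceSub, pow_one]
    linear_combination (- (S0 * T0 * (U0 * V0) ^ 2)) * h1
  · simp only [derS.mul, derS.add, thS_S, thS_T, thS_U, thS_V, derS.one]
    ring
  · simp only [derS.mul, derS.add, derS.pow, thS_S, thS_T, thS_U, thS_V, derS.one]
    ring
  · simp only [derS.mul, derS.add, thS_S, thS_T, thS_U, thS_V, derS.one]
    linear_combination (- (S0 * U0)) * h1
  · simp only [derT.mul, derT.add, thT_S, thT_T, thT_U, thT_V]
    linear_combination (- (T0 * U0 * V0)) * h2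
  · simp only [derT.mul, derT.add, thT_S, thT_T, thT_U, thT_V, derT.one]
    linear_combination (- (S0 * T0 * U0 * V0)) * h2
  · simp only [derT.mul, derT.add, derT.pow, thT_S, thT_T, thT_U, thT_V, derT.one]
    simp only [Nat.cast_ofNat, Nat.reduceSub, pow_one]
    linear_combination (- (S0 * T0 * (U0 * V0) ^ 2)) * h2

/-- the generating monomial -/
noncomputable def gen (i j m : ℕ) : Q2 := P0 ^ i * B0 ^ j * C0 ^ m

/-- the cone of nonnegative combinations allowed at level `(n, k)` -/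
noncomputable def K (n k : ℕ) : AddSubmonoid Q2 :=
  AddSubmonoid.closure {Z | ∃ (q : ℚ) (i j m : ℕ), 0 ≤ q ∧ 2 * i + j + m = n + 1 ∧ k ≤ i * (i + j) ∧
    n + 1 ≤ i * (i + m) + k ∧ Z = q • gen i j m}

lemma mem_K {n k : ℕ} {q : ℚ} {i j m : ℕ} (hq : 0 ≤ q) (h1 : 2 * i + j + m = n + 1)
    (h2 : k ≤ i * (i + j)) (h3 : n + 1 ≤ i * (i + m) + k) : q • gen i j m ∈ K n k :=
  AddSubmonoid.subset_closure ⟨q, i, j, m, hq, h1, h2, h3, rfl⟩

lemma mem_K' {n k : ℕ} {q : ℚ} {i j m : ℕ} (hq : 0 ≤ q)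
    (h : q ≠ 0 → 2 * i + j + m = n + 1 ∧ k ≤ i * (i + j) ∧ n + 1 ≤ i * (i + m) + k) :
    q • gen i j m ∈ K n k := by
  by_cases h0 : q = 0
  · rw [h0, zero_smul]; exact zero_mem _
  · obtain ⟨h1, h2, h3⟩ := h h0
    exact mem_K hq h1 h2 h3

lemma K_smul {n k : ℕ} {c : ℚ} (hc : 0 ≤ c) {Z : Q2} (hZ : Z ∈ K n k) : c • Z ∈ K n k := by
  unfold K at hZ
  induction hZ using AddSubmonoid.closure_induction with
  | mem Z h =>
    obtain ⟨q, i, j, m, hq, h1, h2, h3, rfl⟩ := h
    rw [smul_smul]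
    exact mem_K (mul_nonneg hc hq) h1 h2 h3
  | zero => rw [smul_zero]; exact zero_mem _
  | add x y _ _ hx hy => rw [smul_add]; exact add_mem hx hy

lemma gen_succ (i j m : ℕ) : gen i j (m + 1) = gen i (j + 1) m + gen i j m := by
  unfold gen
  have h := C0_sub_B0
  linear_combination (P0 ^ i * B0 ^ j * C0 ^ m) * h

lemma DD_gen' (i j m : ℕ) :
    DD (gen i j m) =
      ((i * (i + j) : ℕ) : ℚ) • gen i j (m + 1) +
      ((i * (i + m) : ℕ) : ℚ) • gen i (j + 1) m +
      ((j * (j - 1) : ℕ) : ℚ) • gen (i + 1) (j - 2) (m + 1) +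
      ((j * (j + 2 * m + 4 * i + 1) : ℕ) : ℚ) • gen (i + 1) (j - 1) m +
      ((m * (m + 2 * j + 4 * i + 1) : ℕ) : ℚ) • gen (i + 1) j (m - 1) +
      ((m * (m - 1) : ℕ) : ℚ) • gen (i + 1) (j + 1) (m - 2) := by
  have hh : ∀ (a : ℕ) (Z : Q2), (a : ℚ) • Z = (a : Q2) * Z := by
    intro a Z
    rw [← nsmul_eq_mul, Nat.cast_smul_eq_nsmul]
  simp only [hh]
  exact DD_gen i j m

/-- the four raising terms -/
lemma rest_mem (n k n' k' : ℕ) (i j m : ℕ) (h1 : 2 * i + j + m = n + 1) (h2 : k ≤ i * (i + j))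
    (h3 : n + 1 ≤ i * (i + m) + k) (hi : 1 ≤ i) (hn : n' = n + 1) (hk : k' = k ∨ k' = k + 1) :
      ((j * (j - 1) : ℕ) : ℚ) • gen (i + 1) (j - 2) (m + 1) +
      ((j * (j + 2 * m + 4 * i + 1) : ℕ) : ℚ) • gen (i + 1) (j - 1) m +
      ((m * (m + 2 * j + 4 * i + 1) : ℕ) : ℚ) • gen (i + 1) j (m - 1) +
      ((m * (m - 1) : ℕ) : ℚ) • gen (i + 1) (j + 1) (m - 2) ∈ K n' k' := by
  subst hn
  refine add_mem (add_mem (add_mem ?_ ?_) ?_) ?_
  · refine mem_K' (by positivity) ?_
    intro h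
    have hj : 2 ≤ j := by
      by_contra hj
      apply h
      interval_cases j <;> simp
    obtain ⟨j, rfl⟩ := Nat.exists_eq_add_of_le' hj
    simp only [Nat.add_sub_cancel]
    refine ⟨by omega, ?_, ?_⟩
    · rcases hk with rfl | rfl <;> nlinarith
    · rcases hk with rfl | rfl <;> nlinarith
  · refine mem_K' (by positivity) ?_
    intro h
    have hj : 1 ≤ j := by
      by_contra hj
      apply h
      interval_cases j; simp
    obtain ⟨j, rfl⟩ := Nat.exists_eq_add_of_le' hj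
    simp only [Nat.add_sub_cancel]
    refine ⟨by omega, ?_, ?_⟩
    · rcases hk with rfl | rfl <;> nlinarith
    · rcases hk with rfl | rfl <;> nlinarith
  · refine mem_K' (by positivity) ?_
    intro h
    have hm : 1 ≤ m := by
      by_contra hj
      apply h
      interval_cases m; simp
    obtain ⟨m, rfl⟩ := Nat.exists_eq_add_of_le' hm
    simp only [Nat.add_sub_cancel]
    refine ⟨by omega, ?_, ?_⟩
    · rcases hk with rfl | rfl <;> nlinarith
    · rcases hk with rfl | rfl <;> nlinarith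
  · refine mem_K' (by positivity) ?_
    intro h
    have hm : 2 ≤ m := by
      by_contra hj
      apply h
      interval_cases m <;> simp
    obtain ⟨m, rfl⟩ := Nat.exists_eq_add_of_le' hm
    simp only [Nat.add_sub_cancel]
    refine ⟨by omega, ?_, ?_⟩
    · rcases hk with rfl | rfl <;> nlinarith
    · rcases hk with rfl | rfl <;> nlinarith

lemma step_A {n k : ℕ} (hk : 1 ≤ k) {Z : Q2} (hZ : Z ∈ K n k) :
    DD Z + ((n : ℚ) + 1 - k) • Z ∈ K (n + 1) k := by
  unfold K at hZ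
  induction hZ using AddSubmonoid.closure_induction with
  | mem Z h =>
    obtain ⟨q, i, j, m, hq, h1, h2, h3, rfl⟩ := h
    have hi : 1 ≤ i := by
      by_contra hi
      have : i = 0 := by omega
      subst this
      simp at h2
      omega
    have e : DD (q • gen i j m) + ((n : ℚ) + 1 - k) • (q • gen i j m) = q •
        ((((i * (i + j) : ℕ) : ℚ) + ((n : ℚ) + 1 - k)) • gen i j (m + 1) +
        (((i * (i + m) : ℕ) : ℚ) - ((n : ℚ) + 1 - k)) • gen i (j + 1) m +
        (((j * (j - 1) : ℕ) : ℚ) • gen (i + 1) (j - 2) (m + 1) +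
      ((j * (j + 2 * m + 4 * i + 1) : ℕ) : ℚ) • gen (i + 1) (j - 1) m +
      ((m * (m + 2 * j + 4 * i + 1) : ℕ) : ℚ) • gen (i + 1) j (m - 1) +
      ((m * (m - 1) : ℕ) : ℚ) • gen (i + 1) (j + 1) (m - 2))) := by
      rw [DD_smul, DD_gen', gen_succ i j m]
      module
    rw [e]
    have h2' : (k : ℚ) ≤ ((i * (i + j) : ℕ) : ℚ) := by exact_mod_cast h2
    have h3' : ((n + 1 : ℕ) : ℚ) ≤ ((i * (i + m) + k : ℕ) : ℚ) := by exact_mod_cast h3
    rw [Nat.cast_add (i * (i + m)), Nat.cast_add n] at h3'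
    refine K_smul hq (add_mem (add_mem ?_ ?_) (rest_mem n k _ _ i j m h1 h2 h3 hi rfl (Or.inl rfl)))
    · refine mem_K' ?_ ?_
      · have : (0 : ℚ) ≤ n := Nat.cast_nonneg n
        linarith
      · intro _
        refine ⟨by omega, h2, ?_⟩
        nlinarith
    · refine mem_K' ?_ ?_
      · push_cast at h3' ⊢
        linarith
      · intro h
        have h4 : n + 1 ≠ i * (i + m) + k := by
          intro h4
          apply h
          have : ((n + 1 : ℕ) : ℚ) = ((i * (i + m) + k : ℕ) : ℚ) := by exact_mod_cast h4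
          push_cast at this ⊢
          linarith
        refine ⟨by omega, ?_, by omega⟩
        nlinarith
  | zero => rw [DD_zero, smul_zero, add_zero]; exact zero_mem _
  | add x y _ _ hx hy =>
    have : DD (x + y) + ((n : ℚ) + 1 - k) • (x + y) =
      (DD x + ((n : ℚ) + 1 - k) • x) + (DD y + ((n : ℚ) + 1 - k) • y) := by
      rw [DD_add, smul_add]; abel
    rw [this]; exact add_mem hx hy

lemma step_B {n k : ℕ} (hk : 1 ≤ k) {Z : Q2} (hZ : Z ∈ K n k) :
    DD Z - (k : ℚ) • Z ∈ K (n + 1) (k + 1) := by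
  unfold K at hZ
  induction hZ using AddSubmonoid.closure_induction with
  | mem Z h =>
    obtain ⟨q, i, j, m, hq, h1, h2, h3, rfl⟩ := h
    have hi : 1 ≤ i := by
      by_contra hi
      have : i = 0 := by omega
      subst this
      simp at h2
      omega
    have e : DD (q • gen i j m) - (k : ℚ) • (q • gen i j m) = q •
        ((((i * (i + j) : ℕ) : ℚ) - k) • gen i j (m + 1) +
        (((i * (i + m) : ℕ) : ℚ) + k) • gen i (j + 1) m +
        (((j * (j - 1) : ℕ) : ℚ) • gen (i + 1) (j - 2) (m + 1) +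
      ((j * (j + 2 * m + 4 * i + 1) : ℕ) : ℚ) • gen (i + 1) (j - 1) m +
      ((m * (m + 2 * j + 4 * i + 1) : ℕ) : ℚ) • gen (i + 1) j (m - 1) +
      ((m * (m - 1) : ℕ) : ℚ) • gen (i + 1) (j + 1) (m - 2))) := by
      rw [DD_smul, DD_gen', gen_succ i j m]
      module
    rw [e]
    have h2' : (k : ℚ) ≤ ((i * (i + j) : ℕ) : ℚ) := by exact_mod_cast h2
    refine K_smul hq (add_mem (add_mem ?_ ?_) (rest_mem n k _ _ i j m h1 h2 h3 hi rfl (Or.inr rfl)))
    · refine mem_K' ?_ ?_
      · linarith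
      · intro h
        have h4 : k ≠ i * (i + j) := by
          intro h4
          apply h
          have : (k : ℚ) = ((i * (i + j) : ℕ) : ℚ) := by exact_mod_cast h4
          linarith
        refine ⟨by omega, by omega, ?_⟩
        nlinarith
    · refine mem_K' (by positivity) ?_
      intro _
      refine ⟨by omega, ?_, by omega⟩
      nlinarith
  | zero => rw [DD_zero, smul_zero, sub_zero]; exact zero_mem _
  | add x y _ _ hx hy =>
    have : DD (x + y) - (k : ℚ) • (x + y) =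
      (DD x - (k : ℚ) • x) + (DD y - (k : ℚ) • y) := by
      rw [DD_add, smul_add]; abel
    rw [this]; exact add_mem hx hy

/-- the two-variable series of the binomial numbers -/
noncomputable def HH (n k : ℕ) : Q2 := mk fun x => mk fun y => (((x * y + n - k).choose n : ℕ) : ℚ)

lemma cf_HH (n k x y : ℕ) : cf (HH n k) x y = (((x * y + n - k).choose n : ℕ) : ℚ) := by
  simp [cf, HH]

lemma cf_UV (x y : ℕ) : cf (U0 * V0) x y = 1 := by
  simp [cf]

lemma HH_one : HH 1 1 = P0 := by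
  have h : DD (U0 * V0) = P0 := by
    unfold DD
    simp only [derT.mul, thT_U, thT_V, derS.mul, derS.add, derS.zero, thS_T, thS_V, thS_U, derS.pow,
      mul_zero, add_zero, zero_add]
    ring
  rw [← h]
  apply cf_ext
  intro x y
  rw [cf_DD, cf_UV, cf_HH]
  simp

lemma HH_step_A {n k : ℕ} (hk : k ≤ n) :
    ((n : ℚ) + 1) • HH (n + 1) k = DD (HH n k) + ((n : ℚ) + 1 - k) • HH n k := by
  apply cf_ext
  intro x y
  rw [cf_smul, cf_add, cf_DD, cf_smul, cf_HH, cf_HH]
  have h1 : x * y + (n + 1) - k = (x * y + n - k) + 1 := by omega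
  rw [h1]
  have h2 := Nat.add_one_mul_choose_eq (x * y + n - k) n
  have h3 : (((x * y + n - k : ℕ) : ℚ) + 1) * ((x * y + n - k).choose n : ℚ) =
      (((x * y + n - k) + 1).choose (n + 1) : ℚ) * ((n : ℚ) + 1) := by exact_mod_cast h2
  have h4 : ((x * y + n - k : ℕ) : ℚ) = (x : ℚ) * y + n - k := by
    rw [Nat.cast_sub (by omega)]; push_cast; ring
  rw [h4] at h3
  linear_combination -h3

lemma HH_step_B (n : ℕ) :
    ((n : ℚ) + 1) • HH (n + 1) (n + 1) = DD (HH n n) - (n : ℚ) • HH n n := by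
  rw [sub_eq_add_neg, ← neg_smul]
  apply cf_ext
  intro x y
  rw [cf_smul, cf_add, cf_DD, cf_smul, cf_HH, cf_HH]
  have h1 : x * y + (n + 1) - (n + 1) = x * y := by omega
  have h1' : x * y + n - n = x * y := by omega
  rw [h1, h1']
  by_cases hxy : x * y < n
  · rw [Nat.choose_eq_zero_of_lt hxy, Nat.choose_eq_zero_of_lt (by omega)]
    simp
  · have h2 := Nat.choose_succ_right_eq (x * y) n
    have h3 : ((x * y).choose (n + 1) : ℚ) * ((n : ℚ) + 1) =
      ((x * y).choose n : ℚ) * ((x * y - n : ℕ) : ℚ) := by exact_mod_cast h2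
    rw [Nat.cast_sub (by omega)] at h3
    push_cast at h3 ⊢
    linear_combination h3

lemma HH_mem (n k : ℕ) (hk : 1 ≤ k) (hkn : k ≤ n) : HH n k ∈ K n k := by
  induction n generalizing k with
  | zero => omega
  | succ n ih =>
    rcases Nat.eq_zero_or_pos n with rfl | hn
    · have : k = 1 := by omega
      subst this
      have h : HH (0 + 1) 1 = (1 : ℚ) • gen 1 0 0 := by
        rw [show (0 + 1 : ℕ) = 1 from rfl, HH_one, one_smul]
        unfold gen; ring
      rw [h]
      exact mem_K (by norm_num) (by norm_num) (by norm_num) (by norm_num)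
    · have hpos : (0 : ℚ) < (n : ℚ) + 1 := by positivity
      rcases Nat.lt_or_ge n k with h | h
      · have hkk : k = n + 1 := by omega
        subst hkk
        have e : HH (n + 1) (n + 1) = ((n : ℚ) + 1)⁻¹ • (DD (HH n n) - (n : ℚ) • HH n n) := by
          rw [← HH_step_B, smul_smul, inv_mul_cancel₀ hpos.ne', one_smul]
        rw [e]
        exact K_smul (by positivity) (step_B (by omega) (ih n (by omega) le_rfl))
      · have e : HH (n + 1) k = ((n : ℚ) + 1)⁻¹ • (DD (HH n k) + ((n : ℚ) + 1 - k) • HH n k) := by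
          rw [← HH_step_A h, smul_smul, inv_mul_cancel₀ hpos.ne', one_smul]
        rw [e]
        exact K_smul (by positivity) (step_A hk (ih k hk h))

end Pool.Agent.Lib.MP_436b38_co
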