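import Mathlib

set_option autoImplicit false

namespace Pool.Agent.Lib.MP_436b38_co

open Finset

/-- number of descents, written exactly as in the frozen statement -/
def dsc {n : ℕ} (σ : Equiv.Perm (Fin n)) : ℕ :=
  (Finset.univ.filter (fun k : Fin n => ∃ l : Fin n, l.val = k.val + 1 ∧ σ l < σ k)).card

/-- the number of words over a linear order `α` whose stable sorting permutation is `σ` -/
noncomputable def sc (n : ℕ) (α : Type) [LinearOrder α] [Fintype α] (σ : Equiv.Perm (Fin n)) : ℕ :=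
  (Finset.univ.filter (fun a : Fin n → α => Tuple.sort a = σ)).card

lemma sort_comp_orderIso {n : ℕ} {α β : Type} [LinearOrder α] [LinearOrder β] (e : α ≃o β)
    (a : Fin n → α) : Tuple.sort (e ∘ a) = Tuple.sort a := by
  symm
  rw [Tuple.eq_sort_iff]
  have h := (Tuple.eq_sort_iff (f := a) (σ := Tuple.sort a)).1 rfl
  refine ⟨?_, ?_⟩
  · intro i j hij
    exact e.monotone (h.1 hij)
  · intro i j hij hf
    exact h.2 i j hij (e.injective hf)

lemma sc_congr {n : ℕ} {α β : Type} [LinearOrder α] [LinearOrder β] [Fintype α] [Fintype β]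
    (e : α ≃o β) (σ : Equiv.Perm (Fin n)) : sc n α σ = sc n β σ := by
  unfold sc
  refine Finset.card_bij' (fun a _ => e ∘ a) (fun b _ => e.symm ∘ b) ?_ ?_ ?_ ?_
  · intro a ha
    simp only [mem_filter, mem_univ, true_and] at ha ⊢
    rw [sort_comp_orderIso, ha]
  · intro a ha
    simp only [mem_filter, mem_univ, true_and] at ha ⊢
    rw [sort_comp_orderIso, ha]
  · intro a _
    ext i; simp
  · intro a _
    ext i; simp

lemma sort_lex {n : ℕ} {α β : Type} [LinearOrder α] [LinearOrder β]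
    (a : Fin n → α) (b : Fin n → β) :
    Tuple.sort (fun i => toLex (a i, b i)) = Tuple.sort b * Tuple.sort (a ∘ Tuple.sort b) := by
  symm
  rw [Tuple.eq_sort_iff]
  have hb := (Tuple.eq_sort_iff (f := b) (σ := Tuple.sort b)).1 rfl
  have ha := (Tuple.eq_sort_iff (f := a ∘ Tuple.sort b) (σ := Tuple.sort (a ∘ Tuple.sort b))).1 rfl
  set ρ := Tuple.sort b with hρ
  set ρ' := Tuple.sort (a ∘ ρ) with hρ'
  have key : ∀ i j, i < j → a (ρ (ρ' i)) < a (ρ (ρ' j)) ∨
      (a (ρ (ρ' i)) = a (ρ (ρ' j)) ∧ (b (ρ (ρ' i)) < b (ρ (ρ' j)) ∨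
        (b (ρ (ρ' i)) = b (ρ (ρ' j)) ∧ ρ (ρ' i) < ρ (ρ' j)))) := by
    intro i j hij
    have h1 : a (ρ (ρ' i)) ≤ a (ρ (ρ' j)) := ha.1 hij.le
    rcases h1.lt_or_eq with h | h
    · exact Or.inl h
    · right
      refine ⟨h, ?_⟩
      have h2 : ρ' i < ρ' j := ha.2 i j hij h
      have h3 : b (ρ (ρ' i)) ≤ b (ρ (ρ' j)) := hb.1 h2.le
      rcases h3.lt_or_eq with h4 | h4
      · exact Or.inl h4
      · exact Or.inr ⟨h4, hb.2 _ _ h2 h4⟩
  refine ⟨?_, ?_⟩
  · intro i j hij
    rcases hij.lt_or_eq with hij | hij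
    · show toLex (a (ρ (ρ' i)), b (ρ (ρ' i))) ≤ toLex (a (ρ (ρ' j)), b (ρ (ρ' j)))
      rw [Prod.Lex.toLex_le_toLex]
      rcases key i j hij with h | ⟨h, h' | ⟨h', _⟩⟩
      · exact Or.inl h
      · exact Or.inr ⟨h, h'.le⟩
      · exact Or.inr ⟨h, h'.le⟩
    · subst hij; exact le_rfl
  · intro i j hij hf
    have hf' : a (ρ (ρ' i)) = a (ρ (ρ' j)) ∧ b (ρ (ρ' i)) = b (ρ (ρ' j)) := by
      have := congrArg ofLex hf
      simpa [Prod.ext_iff] using this
    show ρ (ρ' i) < ρ (ρ' j)
    rcases key i j hij with h | ⟨h, h' | ⟨h', h''⟩⟩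
    · exact absurd hf'.1 h.ne
    · exact absurd hf'.2 h'.ne
    · exact h''

/-- the composition law of stable sorting: counts -/
lemma sc_mul {n : ℕ} {α β : Type} [LinearOrder α] [LinearOrder β] [Fintype α] [Fintype β]
    (τ : Equiv.Perm (Fin n)) :
    ∑ π : Equiv.Perm (Fin n), sc n β π * sc n α (π⁻¹ * τ) = sc n (α ×ₗ β) τ := by
  classical
  have h1 : sc n (α ×ₗ β) τ =
      (Finset.univ.filter (fun q : (Fin n → α) × (Fin n → β) =>
        Tuple.sort q.2 * Tuple.sort q.1 = τ)).card := by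
    unfold sc
    refine Finset.card_bij'
      (fun h _ => ((fun i => (ofLex (h i)).1) ∘ Tuple.sort (fun i => (ofLex (h i)).2),
        fun i => (ofLex (h i)).2))
      (fun q _ => fun i => toLex (q.1 ((Tuple.sort q.2).symm i), q.2 i)) ?_ ?_ ?_ ?_
    · intro h hh
      simp only [mem_filter, mem_univ, true_and] at hh ⊢
      rw [← hh, ← sort_lex]
      rfl
    · intro q hq
      simp only [mem_filter, mem_univ, true_and] at hq ⊢
      rw [sort_lex (fun i => q.1 ((Tuple.sort q.2).symm i)) q.2, ← hq]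
      congr 2
      ext i
      simp
    · intro h _
      funext i
      simp
    · intro q _
      ext i <;> simp
  rw [h1]
  have h2 : (Finset.univ.filter (fun q : (Fin n → α) × (Fin n → β) =>
        Tuple.sort q.2 * Tuple.sort q.1 = τ)).card =
      ∑ π : Equiv.Perm (Fin n), (Finset.univ.filter (fun q : (Fin n → α) × (Fin n → β) =>
        Tuple.sort q.2 = π ∧ Tuple.sort q.1 = π⁻¹ * τ)).card := by
    rw [← Finset.card_biUnion]
    · congr 1
      ext q
      simp only [mem_filter, mem_univ, true_and, mem_biUnion, exists_eq_left']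
      constructor
      · intro h; rw [← h]; simp
      · intro h; rw [h]; simp
    · intro π _ π' _ hne
      rw [Function.onFun, Finset.disjoint_left]
      intro q hq hq'
      simp only [mem_filter, mem_univ, true_and] at hq hq'
      exact hne (hq.1.symm.trans hq'.1)
  rw [h2]
  refine Finset.sum_congr rfl ?_
  intro π _
  unfold sc
  rw [mul_comm, ← Finset.card_product]
  congr 1
  ext q
  simp only [mem_filter, mem_univ, true_and, mem_product]
  tauto

end Pool.Agent.Lib.MP_436b38_co
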