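import Mathlib
import Pool.Agent.Lib.MP_436b38_co.Sorting

set_option autoImplicit false

namespace Pool.Agent.Lib.MP_436b38_co

open Finset

lemma card_strictMono (k M : ℕ) :
    (Finset.univ.filter (fun G : Fin k → Fin M => StrictMono G)).card = M.choose k := by
  classical
  have h0 : (Finset.powersetCard k (Finset.univ : Finset (Fin M))).card = M.choose k := by
    rw [Finset.card_powersetCard, Finset.card_univ, Fintype.card_fin]
  rw [← h0]
  refine Finset.card_bij (fun G _ => Finset.univ.image G) ?_ ?_ ?_
  · intro G hG
    simp only [mem_filter, mem_univ, true_and] at hG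
    rw [Finset.mem_powersetCard]
    refine ⟨Finset.subset_univ _, ?_⟩
    rw [Finset.card_image_of_injective _ hG.injective]
    simp
  · intro G hG G' hG' h
    simp only [mem_filter, mem_univ, true_and] at hG hG'
    have hc : (Finset.univ.image G).card = k := by
      rw [Finset.card_image_of_injective _ hG.injective]; simp
    have e1 := Finset.orderEmbOfFin_unique hc (f := G) (fun x => by simp) hG
    have e2 := Finset.orderEmbOfFin_unique hc (f := G') (fun x => by rw [h]; simp) hG'
    rw [e1, e2]
  · intro s hs
    rw [Finset.mem_powersetCard] at hs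
    refine ⟨s.orderEmbOfFin hs.2, ?_, ?_⟩
    · simp only [mem_filter, mem_univ, true_and]
      exact (s.orderEmbOfFin hs.2).strictMono
    · exact Finset.image_orderEmbOfFin_univ s hs.2

/-- local description of words with sorting permutation `σ` -/
def Loc {m x : ℕ} (σ : Equiv.Perm (Fin (m + 1))) (g : Fin (m + 1) → Fin x) : Prop :=
  ∀ i : Fin m, g i.castSucc < g i.succ ∨ (g i.castSucc = g i.succ ∧ σ i.castSucc < σ i.succ)

lemma loc_iff {m x : ℕ} (σ : Equiv.Perm (Fin (m + 1))) (g : Fin (m + 1) → Fin x) :
    (Monotone g ∧ ∀ i j, i < j → g i = g j → σ i < σ j) ↔ Loc σ g := by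
  have h1 : Loc σ g ↔ StrictMono (fun i => toLex (g i, σ i)) := by
    rw [Fin.strictMono_iff_lt_succ]
    unfold Loc
    refine forall_congr' ?_
    intro i
    rw [Prod.Lex.toLex_lt_toLex]
  rw [h1]
  constructor
  · rintro ⟨h, h'⟩ i j hij
    rw [Prod.Lex.toLex_lt_toLex]
    rcases (h hij.le).lt_or_eq with h2 | h2
    · exact Or.inl h2
    · exact Or.inr ⟨h2, h' i j hij h2⟩
  · intro h
    refine ⟨?_, ?_⟩
    · intro i j hij
      rcases hij.lt_or_eq with hij | hij
      · have := h hij
        rw [Prod.Lex.toLex_lt_toLex] at this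
        rcases this with h2 | h2
        · exact h2.le
        · exact h2.1.le
      · subst hij; exact le_rfl
    · intro i j hij hg
      have := h hij
      rw [Prod.Lex.toLex_lt_toLex] at this
      rcases this with h2 | h2
      · exact absurd hg h2.ne
      · exact h2.2

lemma sc_eq_loc {m x : ℕ} (σ : Equiv.Perm (Fin (m + 1))) [DecidablePred (Loc (x := x) σ)] :
    sc (m + 1) (Fin x) σ = (Finset.univ.filter (fun g : Fin (m + 1) → Fin x => Loc σ g)).card := by
  unfold sc
  refine Finset.card_bij' (fun a _ => a ∘ σ) (fun g _ => g ∘ σ.symm) ?_ ?_ ?_ ?_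
  · intro a ha
    simp only [mem_filter, mem_univ, true_and] at ha ⊢
    rw [← loc_iff]
    exact Tuple.eq_sort_iff.1 ha.symm
  · intro g hg
    simp only [mem_filter, mem_univ, true_and] at hg ⊢
    symm
    rw [Tuple.eq_sort_iff]
    rw [← loc_iff] at hg
    have : (g ∘ ⇑(Equiv.symm σ)) ∘ ⇑σ = g := by ext i; simp
    rw [this]
    refine ⟨hg.1, ?_⟩
    intro i j hij h
    apply hg.2 i j hij
    simpa using h
  · intro a _
    ext i; simp
  · intro a _
    ext i; simp

/-- indicator of an ascent at position `i` -/
def up {m : ℕ} (σ : Equiv.Perm (Fin (m + 1))) (i : Fin m) : ℕ :=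
  if σ i.castSucc < σ i.succ then 1 else 0

/-- number of ascents before position `i` -/
def ups {m : ℕ} (σ : Equiv.Perm (Fin (m + 1))) (i : Fin (m + 1)) : ℕ :=
  ∑ k : Fin m, if k.castSucc < i then up σ k else 0

lemma ups_zero {m : ℕ} (σ : Equiv.Perm (Fin (m + 1))) : ups σ 0 = 0 := by
  unfold ups
  apply Finset.sum_eq_zero
  intro k _
  simp

lemma ups_succ {m : ℕ} (σ : Equiv.Perm (Fin (m + 1))) (i : Fin m) :
    ups σ i.succ = ups σ i.castSucc + up σ i := by
  unfold ups
  have : ∀ k : Fin m, (if k.castSucc < i.succ then up σ k else 0) =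
      (if k.castSucc < i.castSucc then up σ k else 0) + (if k = i then up σ k else 0) := by
    intro k
    by_cases h : k = i
    · subst h
      simp
    · by_cases h' : k < i
      · have h1 : k.castSucc < i.succ := by
          rw [Fin.lt_def]; simp; have := Fin.lt_def.1 h'; omega
        have h2 : k.castSucc < i.castSucc := by
          rw [Fin.lt_def]; simp; have := Fin.lt_def.1 h'; omega
        simp [h1, h2, h]
      · have h3 : i < k := lt_of_le_of_ne (not_lt.1 h') (Ne.symm h)
        have h1 : ¬ k.castSucc < i.succ := by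
          rw [Fin.lt_def]; simp; have := Fin.lt_def.1 h3; omega
        have h2 : ¬ k.castSucc < i.castSucc := by
          rw [Fin.lt_def]; simp; have := Fin.lt_def.1 h3; omega
        simp [h1, h2, h]
  rw [Finset.sum_congr rfl (fun k _ => this k), Finset.sum_add_distrib]
  congr 1
  simp

lemma dsc_eq {m : ℕ} (σ : Equiv.Perm (Fin (m + 1))) :
    dsc σ = ∑ k : Fin m, (1 - up σ k) := by
  unfold dsc
  rw [Finset.card_eq_sum_ones, Finset.sum_filter, Fin.sum_univ_castSucc]
  have hl : ¬ ∃ l : Fin (m + 1), l.val = (Fin.last m).val + 1 ∧ σ l < σ (Fin.last m) := by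
    rintro ⟨l, hl, _⟩
    have := l.isLt
    simp at hl
    omega
  rw [if_neg hl, add_zero]
  refine Finset.sum_congr rfl ?_
  intro k _
  have : (∃ l : Fin (m + 1), l.val = (k.castSucc).val + 1 ∧ σ l < σ k.castSucc) ↔
      ¬ (σ k.castSucc < σ k.succ) := by
    constructor
    · rintro ⟨l, hl, hs⟩
      have : l = k.succ := by
        apply Fin.ext; rw [hl]; simp
      subst this
      exact not_lt.2 hs.le
    · intro h
      refine ⟨k.succ, by simp, ?_⟩
      refine lt_of_le_of_ne (not_lt.1 h) ?_
      intro h'
      have := σ.injective h'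
      have := congrArg Fin.val this
      simp at this
  unfold up
  by_cases h : σ k.castSucc < σ k.succ
  · rw [if_neg (fun hh => this.1 hh h), if_pos h]
    rfl
  · rw [if_pos (this.2 h), if_neg h]

lemma up_le {m : ℕ} (σ : Equiv.Perm (Fin (m + 1))) (i : Fin m) : up σ i ≤ 1 := by
  unfold up; split_ifs <;> simp

lemma ups_last {m : ℕ} (σ : Equiv.Perm (Fin (m + 1))) : ups σ (Fin.last m) + dsc σ = m := by
  rw [dsc_eq]
  unfold ups
  rw [← Finset.sum_add_distrib]
  have : ∀ k : Fin m, ((if k.castSucc < Fin.last m then up σ k else 0) + (1 - up σ k)) = 1 := by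
    intro k
    have h : k.castSucc < Fin.last m := Fin.castSucc_lt_last k
    rw [if_pos h]
    have := up_le σ k
    omega
  rw [Finset.sum_congr rfl (fun k _ => this k)]
  simp

lemma dsc_le {m : ℕ} (σ : Equiv.Perm (Fin (m + 1))) : dsc σ ≤ m := by
  have := ups_last σ
  omega

lemma ups_mono {m : ℕ} (σ : Equiv.Perm (Fin (m + 1))) : Monotone (ups σ) := by
  rw [Fin.monotone_iff_le_succ]
  intro i
  rw [ups_succ]
  omega

lemma ups_le_val {m : ℕ} (σ : Equiv.Perm (Fin (m + 1))) (i : Fin (m + 1)) : ups σ i ≤ i.val := by
  induction i using Fin.induction with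
  | zero => rw [ups_zero]; simp
  | succ i ih =>
    rw [ups_succ]
    have := up_le σ i
    simp at ih ⊢
    omega

theorem sc_fin {m : ℕ} (x : ℕ) (σ : Equiv.Perm (Fin (m + 1))) :
    sc (m + 1) (Fin x) σ = (x + m - dsc σ).choose (m + 1) := by
  classical
  rw [sc_eq_loc, ← card_strictMono]
  have hd := ups_last σ
  set M := x + m - dsc σ with hM
  have hM' : M = x + ups σ (Fin.last m) := by omega
  refine Finset.card_bij'
    (fun g _ => fun i => (⟨(g i).val + ups σ i, by
      have h1 := (g i).isLt
      have h2 := ups_mono σ (Fin.le_last i)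
      omega⟩ : Fin M))
    (fun G hG => fun i => (⟨(G i).val - ups σ i, by
      simp only [mem_filter, mem_univ, true_and] at hG
      have key : Monotone (fun i => (G i).val - ups σ i) := by
        rw [Fin.monotone_iff_le_succ]
        intro i
        have h1 := hG (Fin.castSucc_lt_succ (i := i))
        have h2 := up_le σ i
        have h3 := ups_succ σ i
        rw [Fin.lt_def] at h1
        show (G i.castSucc).val - ups σ i.castSucc ≤ (G i.succ).val - ups σ i.succ
        omega
      have h2 := key (Fin.le_last i)
      have h3 := (G (Fin.last m)).isLt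
      have h4 : ups σ (Fin.last m) ≤ (G (Fin.last m)).val := by
        refine (ups_le_val σ _).trans ?_
        have : ∀ j : Fin (m + 1), j.val ≤ (G j).val := by
          intro j
          induction j using Fin.induction with
          | zero => simp
          | succ j ih =>
            have h1 := hG (Fin.castSucc_lt_succ (i := j))
            rw [Fin.lt_def] at h1
            simp at ih ⊢
            omega
        exact this _
      simp only at h2
      omega⟩ : Fin x)) ?_ ?_ ?_ ?_
  · intro g hg
    simp only [mem_filter, mem_univ, true_and] at hg ⊢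
    rw [Fin.strictMono_iff_lt_succ]
    intro i
    rw [Fin.lt_def]
    simp only
    rw [ups_succ]
    rcases hg i with h | ⟨h, h'⟩
    · rw [Fin.lt_def] at h; omega
    · have : up σ i = 1 := by unfold up; rw [if_pos h']
      rw [h]; omega
  · intro G hG
    simp only [mem_filter, mem_univ, true_and] at hG ⊢
    intro i
    have h0 : ∀ j : Fin (m + 1), j.val ≤ (G j).val := by
      intro j
      induction j using Fin.induction with
      | zero => simp
      | succ j ih =>
        have h1 := hG (Fin.castSucc_lt_succ (i := j))
        rw [Fin.lt_def] at h1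
        simp at ih ⊢
        omega
    have h1 := hG (Fin.castSucc_lt_succ (i := i))
    rw [Fin.lt_def] at h1
    have h3 := ups_succ σ i
    have h4 := ups_le_val σ i.castSucc
    have h5 := ups_le_val σ i.succ
    have h6 := h0 i.castSucc
    have h7 := h0 i.succ
    by_cases hu : σ i.castSucc < σ i.succ
    · have hu' : up σ i = 1 := by unfold up; rw [if_pos hu]
      rcases Nat.lt_or_ge ((G i.castSucc).val - ups σ i.castSucc) ((G i.succ).val - ups σ i.succ) with h | h
      · left; rw [Fin.lt_def]; exact h
      · right
        refine ⟨?_, hu⟩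
        apply Fin.ext
        simp only
        omega
    · have hu' : up σ i = 0 := by unfold up; rw [if_neg hu]
      left
      rw [Fin.lt_def]
      simp only
      omega
  · intro g _
    funext i
    apply Fin.ext
    simp
  · intro G hG
    simp only [mem_filter, mem_univ, true_and] at hG
    funext i
    apply Fin.ext
    simp only
    have h0 : ∀ j : Fin (m + 1), j.val ≤ (G j).val := by
      intro j
      induction j using Fin.induction with
      | zero => simp
      | succ j ih =>
        have h1 := hG (Fin.castSucc_lt_succ (i := j))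
        rw [Fin.lt_def] at h1
        simp at ih ⊢
        omega
    have h4 := ups_le_val σ i
    have h5 := h0 i
    omega

/-- Gessel's identity, in the shape used below. -/
theorem gessel_identity {m : ℕ} (τ : Equiv.Perm (Fin (m + 1))) (x y : ℕ) :
    ∑ π : Equiv.Perm (Fin (m + 1)),
      (x + m - dsc π).choose (m + 1) * (y + m - dsc (π⁻¹ * τ)).choose (m + 1) =
      (x * y + m - dsc τ).choose (m + 1) := by
  have h := sc_mul (α := Fin y) (β := Fin x) τ
  have hc : Fintype.card (Fin y ×ₗ Fin x) = x * y := by
    rw [show Fintype.card (Fin y ×ₗ Fin x) = Fintype.card (Fin y × Fin x) from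
      Fintype.card_congr (ofLex)]
    rw [Fintype.card_prod, Fintype.card_fin, Fintype.card_fin, mul_comm]
  rw [sc_congr (Fintype.orderIsoFinOfCardEq (Fin y ×ₗ Fin x) hc).symm τ] at h
  simp only [sc_fin] at h
  exact h

end Pool.Agent.Lib.MP_436b38_co
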