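import Mathlib
import Pool.Agent.Lib.MP_436b38_co.Count
import Pool.Agent.Lib.MP_436b38_co.Cone

set_option autoImplicit false
set_option linter.unusedSimpArgs false

namespace Pool.Agent.Lib.MP_436b38_co

/-! ### Extraction of the weights -/

lemma K_extract {n k : ℕ} {Z : Q2} (hZ : Z ∈ K n k) :
    ∃ w : ℕ → ℕ → ℚ, (∀ i j, 0 ≤ w i j) ∧
      Z = ∑ i ∈ Finset.range (n + 2), ∑ j ∈ Finset.range (n + 2 - 2 * i),
        w i j • gen i j (n + 1 - j - 2 * i) := by
  unfold K at hZ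
  induction hZ using AddSubmonoid.closure_induction with
  | mem Z h =>
    obtain ⟨q, i, j, m, hq, h1, h2, h3, rfl⟩ := h
    refine ⟨fun i' j' => if i' = i ∧ j' = j then q else 0, ?_, ?_⟩
    · intro i' j'
      dsimp only
      split_ifs <;> simp [hq]
    · rw [Finset.sum_eq_single_of_mem i (by rw [Finset.mem_range]; omega)]
      · rw [Finset.sum_eq_single_of_mem j (by rw [Finset.mem_range]; omega)]
        · have : n + 1 - j - 2 * i = m := by omega
          simp [this]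
        · intro j' _ hj'
          simp [hj']
      · intro i' _ hi'
        apply Finset.sum_eq_zero
        intro j' _
        simp [hi']
  | zero =>
    refine ⟨fun _ _ => 0, fun _ _ => le_rfl, ?_⟩
    simp
  | add x y _ _ hx hy =>
    obtain ⟨w, hw, hx⟩ := hx
    obtain ⟨w', hw', hy⟩ := hy
    refine ⟨fun i j => w i j + w' i j, fun i j => add_nonneg (hw i j) (hw' i j), ?_⟩
    rw [hx, hy, ← Finset.sum_add_distrib]
    refine Finset.sum_congr rfl ?_
    intro i _
    rw [← Finset.sum_add_distrib]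
    refine Finset.sum_congr rfl ?_
    intro j _
    rw [add_smul]

lemma gen_eq (i j m : ℕ) :
    gen i j m = ((S0 * T0) ^ i * (S0 + T0) ^ j * (1 + S0 * T0) ^ m) * (U0 * V0) ^ (2 * i + j + m) := by
  unfold gen
  rw [mul_pow (S0 * T0) ((U0 * V0) ^ 2) i, mul_pow (S0 + T0) (U0 * V0) j,
    mul_pow (1 + S0 * T0) (U0 * V0) m, ← pow_mul, pow_add, pow_add]
  ring

/-! ### The generating function of a permutation -/

open PowerSeries in
lemma cf_mono (a b N x y : ℕ) (ha : 1 ≤ a) (hb : 1 ≤ b) (ha' : a ≤ N) (hb' : b ≤ N) :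
    cf (S0 ^ a * T0 ^ b * (U0 * V0) ^ (N + 1)) x y =
      (((x + N - a).choose N * (y + N - b).choose N : ℕ) : ℚ) := by
  have e1 : S0 ^ a * T0 ^ b * (U0 * V0) ^ (N + 1) =
      (S0 ^ a * U0 ^ (N + 1)) * C (X ^ b * (mk 1 : Q1) ^ (N + 1)) := by
    rw [map_mul, map_pow, map_pow, mul_pow]; ring
  rw [e1]
  unfold cf
  rw [coeff_mul_C, mk_one_pow_eq_mk_choose_add, mk_one_pow_eq_mk_choose_add, coeff_X_pow_mul']
  have key : ∀ (R : Type) [CommRing R] (z c : ℕ), 1 ≤ c → c ≤ N →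
      (if c ≤ z then coeff (z - c) (mk fun n => ((N + n).choose N : R)) else 0) =
        (((z + N - c).choose N : ℕ) : R) := by
    intro R _ z c hc hcN
    split_ifs with h
    · rw [coeff_mk]
      have : N + (z - c) = z + N - c := by omega
      rw [this]
    · rw [Nat.choose_eq_zero_of_lt (by omega), Nat.cast_zero]
  rw [key Q1 x a ha ha']
  have e2 : (((x + N - a).choose N : ℕ) : Q1) * (X ^ b * mk fun n => (((N + n).choose N : ℕ) : ℚ)) =
      (((x + N - a).choose N : ℕ)) • (X ^ b * mk fun n => (((N + n).choose N : ℕ) : ℚ)) := by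
    rw [nsmul_eq_mul]
  rw [e2, map_nsmul, coeff_X_pow_mul', key ℚ y b hb hb', nsmul_eq_mul, Nat.cast_mul]

lemma G_eq {m : ℕ} (τ : Equiv.Perm (Fin (m + 1))) :
    (∑ π : Equiv.Perm (Fin (m + 1)), S0 ^ (dsc π + 1) * T0 ^ (dsc (π⁻¹ * τ) + 1)) *
      (U0 * V0) ^ (m + 2) = HH (m + 1) (dsc τ + 1) := by
  apply cf_ext
  intro x y
  rw [Finset.sum_mul, cf_HH]
  have h1 : cf (∑ π : Equiv.Perm (Fin (m + 1)),
      S0 ^ (dsc π + 1) * T0 ^ (dsc (π⁻¹ * τ) + 1) * (U0 * V0) ^ (m + 2)) x y =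
      ∑ π : Equiv.Perm (Fin (m + 1)),
        cf (S0 ^ (dsc π + 1) * T0 ^ (dsc (π⁻¹ * τ) + 1) * (U0 * V0) ^ (m + 2)) x y := by
    unfold cf
    rw [map_sum, map_sum]
  rw [h1]
  have h2 := gessel_identity τ x y
  have h3 : x * y + (m + 1) - (dsc τ + 1) = x * y + m - dsc τ := by omega
  rw [h3, ← h2, Nat.cast_sum]
  refine Finset.sum_congr rfl ?_
  intro π _
  rw [show m + 2 = (m + 1) + 1 from rfl]
  rw [cf_mono _ _ _ _ _ (by omega) (by omega) (by have := dsc_le π; omega)
    (by have := dsc_le (π⁻¹ * τ); omega)]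
  have h4 : x + (m + 1) - (dsc π + 1) = x + m - dsc π := by omega
  have h5 : y + (m + 1) - (dsc (π⁻¹ * τ) + 1) = y + m - dsc (π⁻¹ * τ) := by omega
  rw [h4, h5]

/-- The expansion in the power series ring. -/
lemma series_expansion {m : ℕ} (k : ℕ) (hk : k ≤ m) :
    ∃ w : ℕ → ℕ → ℚ, (∀ i j, 0 ≤ w i j) ∧ ∀ τ : Equiv.Perm (Fin (m + 1)), dsc τ = k →
      (∑ π : Equiv.Perm (Fin (m + 1)), S0 ^ (dsc π + 1) * T0 ^ (dsc (π⁻¹ * τ) + 1)) =
      ∑ i ∈ Finset.range (m + 1 + 2), ∑ j ∈ Finset.range (m + 1 + 2 - 2 * i),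
        w i j • ((S0 * T0) ^ i * (S0 + T0) ^ j * (1 + S0 * T0) ^ (m + 1 + 1 - j - 2 * i)) := by
  obtain ⟨w, hw, hH⟩ := K_extract (HH_mem (m + 1) (k + 1) (by omega) (by omega))
  refine ⟨w, hw, ?_⟩
  intro τ hτ
  have hG := G_eq τ
  rw [hτ, hH] at hG
  have hUV : (U0 * V0) ^ (m + 2) * ((1 - S0) * (1 - T0)) ^ (m + 2) = 1 := by
    rw [← mul_pow]
    have h1 := hU
    have h2 := hV
    have : U0 * V0 * ((1 - S0) * (1 - T0)) = 1 := by
      linear_combination h1 * (V0 * (1 - T0)) + h2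
    rw [this, one_pow]
  have h1 : (∑ π : Equiv.Perm (Fin (m + 1)), S0 ^ (dsc π + 1) * T0 ^ (dsc (π⁻¹ * τ) + 1)) =
      ((∑ π : Equiv.Perm (Fin (m + 1)), S0 ^ (dsc π + 1) * T0 ^ (dsc (π⁻¹ * τ) + 1)) *
      (U0 * V0) ^ (m + 2)) * ((1 - S0) * (1 - T0)) ^ (m + 2) := by
    rw [mul_assoc, hUV, mul_one]
  rw [h1, hG, Finset.sum_mul]
  refine Finset.sum_congr rfl ?_
  intro i _
  rw [Finset.sum_mul]
  refine Finset.sum_congr rfl ?_
  intro j hj
  rw [Finset.mem_range] at hj
  rw [smul_mul_assoc, gen_eq]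
  have h2 : 2 * i + j + (m + 1 + 1 - j - 2 * i) = m + 2 := by omega
  rw [h2, mul_assoc ((S0 * T0) ^ i * (S0 + T0) ^ j * (1 + S0 * T0) ^ (m + 1 + 1 - j - 2 * i)), hUV, mul_one]

/-! ### From power series to polynomials -/

abbrev R2 := Polynomial (Polynomial ℚ)

/-- the inclusion of two-variable polynomials into power series -/
noncomputable def psi : R2 →+* Q2 :=
  (Polynomial.coeToPowerSeries.ringHom (R := Q1)).comp
    (Polynomial.mapRingHom (Polynomial.coeToPowerSeries.ringHom (R := ℚ)))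

lemma psi_injective : Function.Injective psi := by
  unfold psi
  rw [RingHom.coe_comp]
  refine Function.Injective.comp ?_ ?_
  · intro a b h
    exact Polynomial.coe_injective Q1 h
  · intro a b h
    refine Polynomial.map_injective _ ?_ h
    intro a b h
    exact Polynomial.coe_injective ℚ h

lemma psi_X : psi Polynomial.X = S0 := by
  unfold psi
  simp

lemma psi_CX : psi (Polynomial.C Polynomial.X) = T0 := by
  unfold psi
  simp

lemma poly_expansion {m : ℕ} (k : ℕ) (hk : k ≤ m) :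
    ∃ w : ℕ → ℕ → ℚ, (∀ i j, 0 ≤ w i j) ∧ ∀ τ : Equiv.Perm (Fin (m + 1)), dsc τ = k →
      ∀ (A : Type) [CommRing A] [Algebra ℚ A] (s t : A),
      (∑ π : Equiv.Perm (Fin (m + 1)), s ^ (dsc π + 1) * t ^ (dsc (π⁻¹ * τ) + 1)) =
      ∑ i ∈ Finset.range (m + 1 + 2), ∑ j ∈ Finset.range (m + 1 + 2 - 2 * i),
        w i j • ((s * t) ^ i * (s + t) ^ j * (1 + s * t) ^ (m + 1 + 1 - j - 2 * i)) := by
  obtain ⟨w, hw, h⟩ := series_expansion k hk
  refine ⟨w, hw, ?_⟩
  intro τ hτ A _ _ s t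
  have hp : (∑ π : Equiv.Perm (Fin (m + 1)), (Polynomial.X : R2) ^ (dsc π + 1) *
      (Polynomial.C Polynomial.X : R2) ^ (dsc (π⁻¹ * τ) + 1)) =
      ∑ i ∈ Finset.range (m + 1 + 2), ∑ j ∈ Finset.range (m + 1 + 2 - 2 * i),
        w i j • (((Polynomial.X : R2) * (Polynomial.C Polynomial.X : R2)) ^ i *
          ((Polynomial.X : R2) + (Polynomial.C Polynomial.X : R2)) ^ j *
          (1 + (Polynomial.X : R2) * (Polynomial.C Polynomial.X : R2)) ^ (m + 1 + 1 - j - 2 * i)) := by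
    apply psi_injective
    simp only [map_sum, map_mul, map_pow, map_add, map_one, map_rat_smul, psi_X, psi_CX]
    exact h τ hτ
  have h2 := congrArg (Polynomial.eval₂RingHom
    (Polynomial.eval₂RingHom (algebraMap ℚ A) t) s) hp
  simp only [map_sum, map_mul, map_pow, map_add, map_one, map_rat_smul] at h2
  simpa using h2

/-! ### Integrality -/

lemma integral_weights {ι : Type} (I : Finset ι) (e : ι → ℕ)
    (he : ∀ a ∈ I, ∀ b ∈ I, e a = e b → a = b) (w : ι → ℚ) (u : ι → Polynomial ℤ)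
    (hu : ∀ a ∈ I, (u a).coeff 0 = 1) (f : Polynomial ℤ)
    (h : f.map (Int.castRingHom ℚ) =
      ∑ a ∈ I, w a • (Polynomial.X ^ (e a) * (u a).map (Int.castRingHom ℚ))) :
    ∀ a ∈ I, ∃ z : ℤ, w a = z := by
  classical
  have main : ∀ N : ℕ, ∀ a ∈ I, e a < N → ∃ z : ℤ, w a = z := by
    intro N
    induction N with
    | zero => intro a _ h; omega
    | succ N ih =>
      intro a ha haN
      rcases Nat.lt_or_ge (e a) N with h1 | h1
      · exact ih a ha h1
      · have hN : e a = N := by omega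
        have hc := congrArg (fun g => Polynomial.coeff g N) h
        simp only [Polynomial.coeff_map, Polynomial.finsetSum_coeff, Polynomial.coeff_smul,
          Polynomial.coeff_X_pow_mul', smul_eq_mul] at hc
        rw [← Finset.add_sum_erase I _ ha] at hc
        rw [if_pos hN.le, hN, Nat.sub_self, hu a ha] at hc
        have hrest : ∃ z : ℤ, (∑ x ∈ I.erase a, w x *
            (if e x ≤ N then (Int.castRingHom ℚ) ((u x).coeff (N - e x)) else 0)) = z := by
          have : ∀ x ∈ I.erase a, ∃ z : ℤ, w x *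
            (if e x ≤ N then (Int.castRingHom ℚ) ((u x).coeff (N - e x)) else 0) = z := by
            intro x hx
            rw [Finset.mem_erase] at hx
            split_ifs with hxN
            · have hlt : e x < N := by
                refine lt_of_le_of_ne hxN ?_
                intro hh
                exact hx.1 (he x hx.2 a ha (hh.trans hN.symm))
              obtain ⟨z, hz⟩ := ih x hx.2 hlt
              refine ⟨z * (u x).coeff (N - e x), ?_⟩
              rw [hz]; push_cast; rfl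
            · exact ⟨0, by simp⟩
          choose! z hz using this
          refine ⟨∑ x ∈ I.erase a, z x, ?_⟩
          rw [Finset.sum_congr rfl hz]; push_cast; rfl
        obtain ⟨z, hz⟩ := hrest
        rw [hz] at hc
        refine ⟨f.coeff N - z, ?_⟩
        simp only [map_one, mul_one, eq_intCast] at hc
        push_cast
        linarith
  intro a ha
  exact main (e a + 1) a ha (Nat.lt_succ_self _)

/-- Nonnegative integer weights. -/
lemma nat_expansion {m : ℕ} (k : ℕ) :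
    ∃ Γ : ℕ → ℕ → ℕ, ∀ τ : Equiv.Perm (Fin (m + 1)), dsc τ = k → ∀ s t : ℤ,
      (∑ π : Equiv.Perm (Fin (m + 1)), s ^ (dsc π + 1) * t ^ (dsc (π⁻¹ * τ) + 1)) =
      ∑ i ∈ Finset.range (m + 1 + 2), ∑ j ∈ Finset.range (m + 1 + 2 - 2 * i),
        (Γ i j : ℤ) * (s * t) ^ i * (s + t) ^ j * (1 + s * t) ^ (m + 1 + 1 - j - 2 * i) := by
  by_cases hex : ∃ τ : Equiv.Perm (Fin (m + 1)), dsc τ = k
  swap
  · refine ⟨fun _ _ => 0, ?_⟩
    intro τ hτ
    exact absurd ⟨τ, hτ⟩ hex
  obtain ⟨τ₀, hτ₀⟩ := hex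
  have hk : k ≤ m := by rw [← hτ₀]; exact dsc_le τ₀
  obtain ⟨w, hw, h⟩ := poly_expansion k hk
  -- integrality
  have hint : ∀ a ∈ (Finset.range (m + 1 + 2)).sigma (fun i => Finset.range (m + 1 + 2 - 2 * i)),
      ∃ z : ℤ, w a.1 a.2 = z := by
    set M := m + 3 with hM
    refine integral_weights _ (fun a : (_ : ℕ) × ℕ => (2 * M + 1) * a.1 + M * a.2) ?_
      (fun a : (_ : ℕ) × ℕ => w a.1 a.2)
      (fun a : (_ : ℕ) × ℕ => (1 + Polynomial.X) ^ a.2 * (1 + Polynomial.X ^ (2 * M + 1)) ^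
        (m + 1 + 1 - a.2 - 2 * a.1)) ?_
      (∑ π : Equiv.Perm (Fin (m + 1)), (Polynomial.X ^ (M + 1)) ^ (dsc π + 1) *
        (Polynomial.X ^ M) ^ (dsc (π⁻¹ * τ₀) + 1)) ?_
    · rintro ⟨i, j⟩ ha ⟨i', j'⟩ hb hab
      rw [Finset.mem_sigma, Finset.mem_range, Finset.mem_range] at ha hb
      simp only at ha hb hab
      have h1 : i + M * (2 * i + j) = i' + M * (2 * i' + j') := by
        calc i + M * (2 * i + j) = (2 * M + 1) * i + M * j := by ring
          _ = (2 * M + 1) * i' + M * j' := hab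
          _ = i' + M * (2 * i' + j') := by ring
      have hi : i < M := by omega
      have hi' : i' < M := by omega
      have h2 : i = i' := by
        have := congrArg (· % M) h1
        simp only [Nat.add_mul_mod_self_left] at this
        rwa [Nat.mod_eq_of_lt hi, Nat.mod_eq_of_lt hi'] at this
      subst h2
      have h3 : M * (2 * i + j) = M * (2 * i + j') := by omega
      have h4 : 2 * i + j = 2 * i + j' := Nat.eq_of_mul_eq_mul_left (by omega) h3
      have h5 : j = j' := by omega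
      subst h5
      rfl
    · rintro ⟨i, j⟩ _
      simp only [Polynomial.coeff_zero_eq_eval_zero, Polynomial.eval_mul, Polynomial.eval_pow,
        Polynomial.eval_add, Polynomial.eval_one, Polynomial.eval_X]
      rw [zero_pow (by omega)]
      simp
    · have h1 := h τ₀ hτ₀ (Polynomial ℚ) (Polynomial.X ^ (M + 1)) (Polynomial.X ^ M)
      rw [Finset.sum_sigma]
      have h2 : Polynomial.map (Int.castRingHom ℚ) (∑ π : Equiv.Perm (Fin (m + 1)),
          (Polynomial.X ^ (M + 1)) ^ (dsc π + 1) * (Polynomial.X ^ M) ^ (dsc (π⁻¹ * τ₀) + 1)) =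
          ∑ π : Equiv.Perm (Fin (m + 1)), ((Polynomial.X : Polynomial ℚ) ^ (M + 1)) ^ (dsc π + 1) *
            (Polynomial.X ^ M) ^ (dsc (π⁻¹ * τ₀) + 1) := by
        rw [← Polynomial.coe_mapRingHom, map_sum]
        simp
      rw [h2, h1]
      refine Finset.sum_congr rfl ?_
      intro i _
      refine Finset.sum_congr rfl ?_
      intro j _
      congr 1
      simp only [Polynomial.map_mul, Polynomial.map_pow, Polynomial.map_add, Polynomial.map_one,
        Polynomial.map_X]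
      have e1 : (Polynomial.X : Polynomial ℚ) ^ (M + 1) * Polynomial.X ^ M =
        Polynomial.X ^ (2 * M + 1) := by rw [← pow_add]; congr 1; ring
      have e2 : (Polynomial.X : Polynomial ℚ) ^ (M + 1) + Polynomial.X ^ M =
        Polynomial.X ^ M * (1 + Polynomial.X) := by ring
      rw [e1, e2, mul_pow, ← pow_mul, ← pow_mul, pow_add]
      ring
  have hnat : ∀ i ∈ Finset.range (m + 1 + 2), ∀ j ∈ Finset.range (m + 1 + 2 - 2 * i),
      ∃ z : ℕ, w i j = z := by
    intro i hi j hj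
    obtain ⟨z, hz⟩ := hint ⟨i, j⟩ (Finset.mem_sigma.2 ⟨hi, hj⟩)
    simp only at hz
    have hz0 : 0 ≤ z := by
      have := hw i j
      rw [hz] at this
      exact_mod_cast this
    refine ⟨z.toNat, ?_⟩
    rw [hz]
    have : ((z.toNat : ℤ) : ℚ) = (z : ℚ) := by rw [Int.toNat_of_nonneg hz0]
    rw [← this]; exact Int.cast_natCast _
  refine ⟨fun i j => ⌊w i j⌋₊, ?_⟩
  intro τ hτ s t
  have h1 := h τ hτ ℚ (s : ℚ) (t : ℚ)
  have h2 : ((∑ π : Equiv.Perm (Fin (m + 1)), s ^ (dsc π + 1) * t ^ (dsc (π⁻¹ * τ) + 1) : ℤ) : ℚ) =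
      ((∑ i ∈ Finset.range (m + 1 + 2), ∑ j ∈ Finset.range (m + 1 + 2 - 2 * i),
        ((⌊w i j⌋₊ : ℕ) : ℤ) * (s * t) ^ i * (s + t) ^ j * (1 + s * t) ^ (m + 1 + 1 - j - 2 * i) : ℤ) : ℚ) := by
    push_cast
    rw [h1]
    refine Finset.sum_congr rfl ?_
    intro i hi
    refine Finset.sum_congr rfl ?_
    intro j hj
    obtain ⟨z, hz⟩ := hnat i hi j hj
    rw [hz, Nat.floor_natCast, smul_eq_mul]
    ring
  exact_mod_cast h2

end Pool.Agent.Lib.MP_436b38_co
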